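import Pool.Agent.H521.G.Sq2

open MeasureTheory Set Filter Topology
open scoped ENNReal ComplexConjugate

namespace Pool.Agent.Results.MP_36c81c_nt.GapsAfterSquaresAndTotient

/-- A sequence of (Beurling) generalised primes `1 < p 0 < p 1 < ⋯ → ∞`. -/
structure GenPrimes (p : ℕ → ℝ) : Prop where
  one_lt : 1 < p 0
  strictMono : StrictMono p
  tendsto : Tendsto p atTop atTop

/-- The generalised integer `∏ p_j ^ (e j)` with exponent vector `e`. -/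
noncomputable def genInt (p : ℕ → ℝ) (e : ℕ →₀ ℕ) : ℝ := e.prod fun j k => p j ^ k

/-- `N_P(x)`, the number of generalised integers `≤ x`, counted with multiplicity. -/
noncomputable def countInts (p : ℕ → ℝ) (x : ℝ) : ℕ := Set.ncard {e : ℕ →₀ ℕ | genInt p e ≤ x}

/-- `π_P(x)`, the number of generalised primes `≤ x`. -/
noncomputable def countPrimes (p : ℕ → ℝ) (x : ℝ) : ℕ := Set.ncard {j : ℕ | p j ≤ x}

/-- The zeta function `ζ_P(s) = ∑ n^{-s}` over the generalised integers. -/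
noncomputable def zetaP (p : ℕ → ℝ) (s : ℂ) : ℂ := ∑' e : ℕ →₀ ℕ, ((genInt p e : ℝ) : ℂ) ^ (-s)

/-- The main term `∫_2^x (1 - ∑_{ρ ∈ Z} Re u^{ρ-1}) du / log u` of the prime counting function,
that is `li x - ∑_ρ li x^ρ` up to a constant, for a finite multiset `Z` of zeros. -/
noncomputable def primeMain (Z : Multiset ℂ) (x : ℝ) : ℝ :=
  ∫ u in (2 : ℝ)..x, (1 - (Z.map fun ρ => ((u : ℂ) ^ (ρ - 1)).re).sum) / Real.log u

/-- `p` is a system of generalised primes whose zeta function continues to `Re s > 1/2`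
with only a simple pole at `1`, with zeros exactly `Z` there (with multiplicity) and with the
Lindelöf bound, and with square-root error terms in the counting of generalised integers and
of generalised primes.  For `Z = 0` this is the Riemann hypothesis for `p`. -/
structure System (Z : Multiset ℂ) (p : ℕ → ℝ) : Prop where
  primes : GenPrimes p
  summable : ∀ s : ℂ, 1 < s.re → Summable fun e : ℕ →₀ ℕ => ((genInt p e : ℝ) : ℂ) ^ (-s)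
  zeta : ∃ g : ℂ → ℂ, DifferentiableOn ℂ g {s : ℂ | 1 / 2 < s.re} ∧
    (∀ s : ℂ, 1 < s.re → (s - 1) * zetaP p s = (Z.map fun ρ => s - ρ).prod * Complex.exp (g s)) ∧
    ∀ ε : ℝ, 0 < ε → ∃ C : ℝ, ∀ s : ℂ, 1 / 2 + ε ≤ s.re →
      ‖(Z.map fun ρ => s - ρ).prod * Complex.exp (g s)‖ ≤ C * (1 + ‖s‖) ^ (1 + ε)
  ints : ∃ κ : ℝ, 0 < κ ∧ ∀ ε : ℝ, 0 < ε → ∃ C : ℝ, ∀ x : ℝ, 1 ≤ x →
    |(countInts p x : ℝ) - κ * x| ≤ C * x ^ (1 / 2 + ε)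
  pnt : ∀ ε : ℝ, 0 < ε → ∃ C : ℝ, ∀ x : ℝ, 2 ≤ x →
    |(countPrimes p x : ℝ) - primeMain Z x| ≤ C * x ^ (1 / 2 + ε)

/-- `a_P(n) = q_P(n) - n ^ 2`, where `q_P(n)` is the least generalised prime above `n ^ 2`. -/
noncomputable def gapAfterSquare (p : ℕ → ℝ) (n : ℕ) : ℝ :=
  sInf {x : ℝ | (∃ k, p k = x) ∧ (n : ℝ) ^ 2 < x} - (n : ℝ) ^ 2

/-- Sets of natural numbers with `#(S ∩ [1, N]) = O(N^ε)` for every `ε > 0`. -/
def Sparse (S : Set ℕ) : Prop := ∀ ε : ℝ, 0 < ε → ∃ C : ℝ, ∀ N : ℕ, 1 ≤ N →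
  ((Set.ncard {n | n ∈ S ∧ n ≤ N} : ℕ) : ℝ) ≤ C * (N : ℝ) ^ ε

open Pool.Agent.H521 Pool.Agent.H521.G in
/-- **Theorem.** For systems of generalised primes with Riemann hypothesis (or any other finite
set of zeros) and square-root error terms:
* the possible sets of exceptions to `a_P(n) ≤ 1 + φ(n)` are exactly the sets with counting
  function `O(N^ε)`, and the same holds for every other bound between `n^{1-o(1)}` and
  `2 n - 10 log n`;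
* the gaps `a_P(n)` can be prescribed up to `10 log n`, provided that their sum over `n ≤ N` is
  `O(N^{1+ε})`;
* always `#{n ≤ N : a_P(n) > n^θ} = O(N^{2-2θ+ε})`. -/
theorem result (Z : Multiset ℂ) (hZ : ∀ ρ ∈ Z, 1 / 2 < ρ.re ∧ ρ.re < 1) (hZc : Z.map conj = Z) :
    (∀ S : Set ℕ, (∃ p : ℕ → ℝ, System Z p ∧ ∃ n₀ : ℕ, ∀ n, n₀ ≤ n →
        (1 + (Nat.totient n : ℝ) < gapAfterSquare p n ↔ n ∈ S)) ↔ Sparse S) ∧
    (∀ h : ℕ → ℝ, (∀ θ : ℝ, θ < 1 → ∃ n₀ : ℕ, ∀ n, n₀ ≤ n → (n : ℝ) ^ θ ≤ h n) →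
      (∃ n₀ : ℕ, ∀ n, n₀ ≤ n → h n + 10 * Real.log n ≤ 2 * n) →
      ∀ S : Set ℕ, (∃ p : ℕ → ℝ, System Z p ∧ ∃ n₀ : ℕ, ∀ n, n₀ ≤ n →
        (h n < gapAfterSquare p n ↔ n ∈ S)) ↔ Sparse S) ∧
    (∀ v : ℕ → ℝ, (∀ n, 0 ≤ v n) → (∃ n₀ : ℕ, ∀ n, n₀ ≤ n → v n + 10 * Real.log n ≤ 2 * n) →
      (∀ ε : ℝ, 0 < ε → ∃ C : ℝ, ∀ N : ℕ, 1 ≤ N →
        ∑ n ∈ Finset.Icc 1 N, v n ≤ C * (N : ℝ) ^ (1 + ε)) →
      ∃ p : ℕ → ℝ, System Z p ∧ ∃ n₀ : ℕ, ∀ n, n₀ ≤ n →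
        v n < gapAfterSquare p n ∧ gapAfterSquare p n ≤ v n + 10 * Real.log n) ∧
    (∀ p : ℕ → ℝ, System Z p → ∀ θ : ℝ, 0 < θ → θ ≤ 1 → ∀ ε : ℝ, 0 < ε →
      ∃ C : ℝ, ∀ N : ℕ, 1 ≤ N →
        ((Set.ncard {n : ℕ | n ≤ N ∧ (n : ℝ) ^ θ < gapAfterSquare p n} : ℕ) : ℝ) ≤
          C * (N : ℝ) ^ (2 - 2 * θ + ε)) := by
  have hZ1 : ∀ ρ ∈ Z, ρ.re < 1 := fun ρ h => (hZ ρ h).2
  have hW : ∀ p : ℕ → ℝ, System Z p → SysW Z p := fun p hS =>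
    ⟨hS.primes.one_lt, hS.primes.strictMono, hS.primes.tendsto, hS.summable, hS.zeta, hS.pnt⟩
  have hB : ∀ p : ℕ → ℝ, Sys Z p → System Z p := fun p hs =>
    ⟨⟨by linarith [hs.three_le 0], hs.mono, hs.tendsto⟩, hs.summable, hs.zeta, hs.ints, hs.pnt⟩
  have key : ∀ h : ℕ → ℝ, (∀ θ : ℝ, θ < 1 → ∃ n₀ : ℕ, ∀ n, n₀ ≤ n → (n : ℝ) ^ θ ≤ h n) →
      (∃ n₀ : ℕ, ∀ n, n₀ ≤ n → h n + 10 * Real.log n ≤ 2 * n) →
      ∀ S : Set ℕ, (∃ p : ℕ → ℝ, System Z p ∧ ∃ n₀ : ℕ, ∀ n, n₀ ≤ n →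
        (h n < gapAfterSquare p n ↔ n ∈ S)) ↔ Sparse S := by
    intro h h1 h2 S
    have h1' : ∀ θ : ℝ, θ < 1 → ∀ᶠ n : ℕ in atTop, (n : ℝ) ^ θ ≤ h n := fun θ hθ =>
      eventually_atTop.2 (h1 θ hθ)
    constructor
    · rintro ⟨p, hp, hn⟩
      exact sq_sparse hZ1 hZc h1' (hW p hp) (eventually_atTop.2 hn)
    · intro hS
      obtain ⟨p, hp, hn⟩ := sq_sets hZ1 hZc h1' (eventually_atTop.2 h2) hS
      exact ⟨p, hB p hp, eventually_atTop.1 hn⟩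
  refine ⟨fun S => ?_, key, fun v hv0 hv1 hv => ?_, fun p hp θ h0 h1 ε hε => ?_⟩
  · exact key (fun n => 1 + (Nat.totient n : ℝ))
      (fun θ hθ => eventually_atTop.1 (rpow_le_totient hθ))
      (eventually_atTop.1 totient_room) S
  · obtain ⟨p, hp, hn⟩ := sq_exists hZ1 hZc hv0 (eventually_atTop.2 hv1) hv
    exact ⟨p, hB p hp, eventually_atTop.1 hn⟩
  · exact sq_count hZ1 hZc (hW p hp) h0 h1 hε

end Pool.Agent.Results.MP_36c81c_nt.GapsAfterSquaresAndTotient
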